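import Pool.Agent.Helper61.BT.Goals

/-!
# Project BT: the induction (packet INB)
-/

set_option autoImplicit false

namespace Pool.Agent.Helper26.BT

open Pool.Agent.Helper27.VF Pool.Agent.Helper61.BT

universe u

theorem inf_of_stg {A W : Type u} [Group A] [MulAction A W] {G G₀ : SimpleGraph W} {w : W}
    {p : Ultrafilter W} (h : Stg A G G₀ w p) : Infinite A := by
  by_contra hA
  rw [not_infinite_iff_finite] at hA
  obtain ⟨F, hF, hcov⟩ := h.fin
  have hW : (Set.univ : Set W).Finite := by
    refine ((Set.finite_univ (α := A)).image2 (fun a f => a • f) hF).subset ?_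
    intro x _
    obtain ⟨a, f, hf, rfl⟩ := hcov x
    exact ⟨a, Set.mem_univ a, f, hf, rfl⟩
  exact h.nonp _ hW Filter.univ_mem

theorem tri_zero (A : Type u) [Group A] : Tri A 0 :=
  ⟨fun i => i.elim0, fun i => i.elim0, fun i => i.elim0, fun i => i.elim0, fun i => i.elim0,
    fun _ _ _ _ _ i => i.elim0⟩

theorem inb (hE : DvbStmt.{u}) (hS : TrsStmt.{u}) (hT : TfbStmt.{u}) : InbStmt.{u} := by
  intro k
  induction k with
  | zero =>
    intro A W _ _ G G₀ w p _ _
    exact tri_zero A
  | succ k ih =>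
    intro A W _ _ G G₀ w p h hno
    have := inf_of_stg h
    by_cases hcut : ∃ n : ℕ, ∃ c, IsCut G c ∧ (sep c).ncard = n ∧ ∃ a b : A, Dis p c a b
    · classical
      obtain ⟨c, hc, hcard, a, b, hab⟩ := Nat.find_spec hcut
      set m := Nat.find hcut with hm
      have hMn : Mn A G p m := by
        intro c' hc' a' b' hab'
        exact Nat.find_min' hcut ⟨c', hc', rfl, a', b', hab'⟩
      have hSS : (SS A G p m).Nonempty := ⟨c, hc, hcard, a, b, hab⟩
      obtain ⟨W', _, G', G₀', w', p', hS', hcon⟩ := hT A W G G₀ w p h m hMn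
      have hno' : ¬ Con (BB A G p m) G' p' := fun hc' => hno (hcon hc')
      exact hS A (BB A G p m) (hE A W G G₀ w p h m hMn hSS) k
        (ih (BB A G p m) W' G' G₀' w' p' hS' hno')
    · exact absurd ⟨Set.univ, Set.infinite_univ, fun a _ b _ c hc hab =>
        hcut ⟨_, c, hc, rfl, a, b, hab⟩⟩ hno

end Pool.Agent.Helper26.BT
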