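import Mathlib

/-!
# Project BT: infinitely many generators in a finitely generated subgroup
-/

set_option autoImplicit false

namespace Pool.Agent.Helper26.BT

universe u

theorem exists_fin {Γ : Type u} [Group Γ] (S : Set Γ) {x : Γ} (hx : x ∈ Subgroup.closure S) :
    ∃ F : Set Γ, F.Finite ∧ F ⊆ S ∧ x ∈ Subgroup.closure F := by
  induction hx using Subgroup.closure_induction with
  | mem x hx => exact ⟨{x}, Set.finite_singleton x, by simpa using hx,
      Subgroup.subset_closure rfl⟩
  | one => exact ⟨∅, Set.finite_empty, Set.empty_subset _, Subgroup.one_mem _⟩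
  | mul x y _ _ ihx ihy =>
    obtain ⟨F, hF, hFS, hx⟩ := ihx
    obtain ⟨F', hF', hFS', hy⟩ := ihy
    exact ⟨F ∪ F', hF.union hF', Set.union_subset hFS hFS', Subgroup.mul_mem _
      (Subgroup.closure_mono Set.subset_union_left hx)
      (Subgroup.closure_mono Set.subset_union_right hy)⟩
  | inv x _ ihx =>
    obtain ⟨F, hF, hFS, hx⟩ := ihx
    exact ⟨F, hF, hFS, Subgroup.inv_mem _ hx⟩

theorem exists_fin_set {Γ : Type u} [Group Γ] (S X : Set Γ) (hX : X.Finite)
    (h : X ⊆ Subgroup.closure S) :
    ∃ F : Set Γ, F.Finite ∧ F ⊆ S ∧ X ⊆ Subgroup.closure F := by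
  induction X, hX using Set.Finite.induction_on with
  | empty => exact ⟨∅, Set.finite_empty, Set.empty_subset _, Set.empty_subset _⟩
  | insert _ _ ih =>
    rename_i a s _ _
    obtain ⟨F, hF, hFS, hs⟩ := ih ((Set.subset_insert _ _).trans h)
    obtain ⟨F', hF', hFS', ha⟩ := exists_fin S (h (Set.mem_insert _ _))
    refine ⟨F ∪ F', hF.union hF', Set.union_subset hFS hFS', ?_⟩
    rintro x (rfl | hx)
    · exact Subgroup.closure_mono Set.subset_union_right ha
    · exact Subgroup.closure_mono Set.subset_union_left (hs hx)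

/-- If the generating set `S` (symmetric) has infinitely many elements in the finitely generated
subgroup `H`, then an infinite symmetric subset `T` of `S` generates a finitely generated
subgroup. -/
theorem exists_T {Γ : Type u} [Group Γ] (S : Set Γ) (hS : Subgroup.closure S = ⊤)
    (hsym : ∀ s ∈ S, s⁻¹ ∈ S) (H : Subgroup Γ) (hH : H.FG) (hinf : (S ∩ H).Infinite) :
    ∃ T : Set Γ, T ⊆ S ∧ T.Infinite ∧ (∀ t ∈ T, t⁻¹ ∈ T) ∧ (Subgroup.closure T).FG := by
  obtain ⟨X, hX⟩ := hH
  obtain ⟨F, hF, hFS, hXF⟩ := exists_fin_set S (X : Set Γ) X.finite_toSet (by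
    rw [hS]
    intro x _
    exact Subgroup.mem_top x)
  have hle : H ≤ Subgroup.closure F := by
    rw [← hX]
    exact (Subgroup.closure_le _).2 hXF
  have hcl : Subgroup.closure (S ∩ (Subgroup.closure F : Set Γ)) = Subgroup.closure F := by
    apply le_antisymm
    · exact (Subgroup.closure_le _).2 Set.inter_subset_right
    · exact Subgroup.closure_mono fun x hx => ⟨hFS hx, Subgroup.subset_closure hx⟩
  refine ⟨S ∩ (Subgroup.closure F : Set Γ), Set.inter_subset_left, ?_, ?_, ?_⟩
  · exact hinf.mono (Set.inter_subset_inter_right S hle)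
  · rintro t ⟨h1, h2⟩
    exact ⟨hsym t h1, Subgroup.inv_mem _ h2⟩
  · rw [hcl]
    exact ⟨hF.toFinset, by simp⟩

end Pool.Agent.Helper26.BT
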